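import Pool.Agent.Y811.PC.Stm

set_option autoImplicit false

/-!
# From the dynamics to the exterior map
-/

namespace Pool.Agent.Y167.PC

open Complex Metric Set Filter Topology Pool.Agent.H712R2 Pool.Agent.H713R2 N62a1eb23
open Pool.Agent.Y736.HL Pool.Agent.Y736.ML Pool.Agent.Y811.PC

theorem norm_le_two_of_mem {d : ℕ} (hd : 2 ≤ d) {c : ℂ} (h : c ∈ multibrotSet d) : ‖c‖ ≤ 2 := by
  have h1 := (mem_multibrot_iff hd c).mp h 1
  have h2 : P d 1 c = c := by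
    have h0 : d ≠ 0 := by omega
    simp [P, fc, h0]
  rwa [h2] at h1

/-- Bernoulli -/
theorem bern {x : ℝ} (hx : 1 < x) (D : ℕ) (h : x ^ D ≤ 4) : (D : ℝ) * (x - 1) ≤ 3 := by
  have h1 := one_add_mul_le_pow (a := x - 1) (by linarith) D
  have h2 : 1 + (x - 1) = x := by ring
  rw [h2] at h1
  linarith

theorem log_lower {x : ℝ} (hx : 1 < x) {d n' : ℕ} (hd : 2 ≤ d) (h : x ^ (d ^ n') ≤ 4) :
    n' * Real.log d - Real.log 3 ≤ Real.log (1 / (x - 1)) := by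
  have h1 := bern hx _ h
  have hd0 : (0 : ℝ) < d := by
    have : 0 < d := by omega
    exact_mod_cast this
  have hx0 : 0 < x - 1 := by linarith
  push_cast at h1
  have h2 : (d : ℝ) ^ n' / 3 ≤ 1 / (x - 1) := by
    rw [div_le_div_iff₀ (by norm_num) hx0]
    linarith
  have h3 := Real.log_le_log (by positivity) h2
  rw [Real.log_div (by positivity) (by norm_num), Real.log_pow] at h3
  exact h3

theorem log_upper {x : ℝ} (hx : 1 < x) {d n' : ℕ} (hd : 2 ≤ d) (h : 3 < 2 * x ^ (d ^ n')) :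
    Real.log (1 / (x - 1)) ≤ n' * Real.log d + Real.log 4 := by
  have hd0 : (0 : ℝ) < d := by
    have : 0 < d := by omega
    exact_mod_cast this
  have hx0 : 0 < x - 1 := by linarith
  have h1 : x ^ (d ^ n') ≤ Real.exp ((x - 1) * d ^ n') := by
    have h4 : x ≤ Real.exp (x - 1) := by
      have := Real.add_one_le_exp (x - 1)
      linarith
    calc x ^ (d ^ n') ≤ (Real.exp (x - 1)) ^ (d ^ n') := pow_le_pow_left₀ (by linarith) h4 _
      _ = Real.exp ((x - 1) * d ^ n') := by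
          rw [← Real.exp_nat_mul]
          congr 1
          push_cast
          ring
  have h2 : 1 / 4 ≤ (x - 1) * (d : ℝ) ^ n' := by
    by_contra hc
    push Not at hc
    have h3 : Real.exp ((x - 1) * (d : ℝ) ^ n') < Real.exp (1 / 4) := Real.exp_lt_exp.mpr hc
    have h4 : Real.exp (1 / 4) < 3 / 2 := by
      have h5 : Real.exp (1 / 4) ^ 4 = Real.exp 1 := by
        rw [← Real.exp_nat_mul]
        norm_num
      have h6 := Real.exp_one_lt_d9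
      by_contra hc2
      push Not at hc2
      have h7 : (3 / 2 : ℝ) ^ 4 ≤ Real.exp (1 / 4) ^ 4 := pow_le_pow_left₀ (by norm_num) hc2 4
      rw [h5] at h7
      norm_num at h7
      linarith
    linarith
  have h3 : 1 / (x - 1) ≤ 4 * (d : ℝ) ^ n' := by
    rw [div_le_iff₀ hx0]
    nlinarith
  have h4 := Real.log_le_log (by positivity) h3
  rw [Real.log_mul (by norm_num) (by positivity), Real.log_pow] at h4
  linarith

theorem part1 (h1 : S_GU) (h3 : S_MUL) (d m q : ℕ) (c₀ z₀ : ℂ) (N₀ : ℕ)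
    (hpd : PD d m q c₀ z₀) (hc₀ : c₀ ∈ multibrotSet d) (hN : 1 ≤ N₀) (hdyn : Dyn d m q c₀ z₀ N₀)
    (ε₀ : ℝ) (hε1 : ε₀ ≤ 1)
    (hiso : ∀ η : ℝ, 0 < η → ∃ r : ℝ, 0 < r ∧ ∀ c ∈ closedBall c₀ ε₀, ∀ α ∈ closedBall z₀ ε₀,
      G d m c α = α → ‖mu d m c α - mu d m c₀ z₀‖ ≤ r → ‖c - c₀‖ < η ∧ ‖α - z₀‖ < η)
    (δ : ℝ) (hδ : 0 < δ) : ∃ r₀ : ℝ, 0 < r₀ ∧ ∀ ψ : ℂ → ℂ,
    IsExteriorMap (multibrotSet d) ψ →
    ∀ w α : ℂ, 1 < ‖w‖ → ‖ψ w - c₀‖ ≤ ε₀ → ‖α - z₀‖ ≤ ε₀ → G d m (ψ w) α = α →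
      ‖mu d m (ψ w) α - mu d m c₀ z₀‖ ≤ r₀ →
        2 * Real.pi * m * Real.log d / q - δ ≤
          ‖mu d m (ψ w) α - mu d m c₀ z₀‖ * Real.log (1 / (‖w‖ - 1)) := by
  have hd := hpd.hd
  have hm := hpd.hm
  have hq := hpd.hq
  have hqr : (1 : ℝ) ≤ q := by exact_mod_cast hq
  have hmr : (1 : ℝ) ≤ m := by exact_mod_cast hm
  have hdr : (2 : ℝ) ≤ d := by exact_mod_cast hd
  have hlog : 0 < Real.log d := Real.log_pos (by linarith)
  have hlog3 : 0 < Real.log 3 := Real.log_pos (by norm_num)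
  have hpi := Real.pi_gt_three
  have hpi4 := Real.pi_lt_four
  obtain ⟨K, hK⟩ : ∃ K : ℝ, K = m * Real.log d / q := ⟨_, rfl⟩
  have hK0 : 0 < K := by rw [hK]; positivity
  obtain ⟨δ', hδ'0, hδ'1, hδ'2⟩ : ∃ δ' : ℝ, 0 < δ' ∧ δ' ≤ 1 / 2 ∧ 9 * K * δ' ≤ δ / 2 := by
    refine ⟨min (1 / 2) (δ / (18 * K)), by positivity, min_le_left _ _, ?_⟩
    have := min_le_right (1 / 2) (δ / (18 * K))
    calc 9 * K * min (1 / 2) (δ / (18 * K)) ≤ 9 * K * (δ / (18 * K)) :=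
          mul_le_mul_of_nonneg_left this (by positivity)
      _ = δ / 2 := by field_simp; norm_num
  obtain ⟨ε₁, n₁, hε₁, hdyn1⟩ := hdyn.1 δ' hδ'0
  obtain ⟨rm, hrm0, hrm⟩ := h3 q (mu d m c₀ z₀) hq hpd.mul.pow_eq_one δ' hδ'0
  obtain ⟨ri, hri0, hri⟩ := hiso ε₁ hε₁
  obtain ⟨T, hT⟩ : ∃ T : ℝ, T = (2 * Real.pi - δ') / ((1 + δ') * q) := ⟨_, rfl⟩
  have hT0 : 0 < T := by
    rw [hT]
    apply div_pos (by linarith) (by positivity)
  have hKT : m * Real.log d * T ≥ 2 * Real.pi * m * Real.log d / q - δ / 2 := by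
    have e1 : m * Real.log d * T = K * ((2 * Real.pi - δ') / (1 + δ')) := by
      rw [hT, hK]; field_simp
    have e2 : 2 * Real.pi * m * Real.log d / q = K * (2 * Real.pi) := by
      rw [hK]; ring
    rw [e1, e2]
    have e3 : 2 * Real.pi - 9 * δ' ≤ (2 * Real.pi - δ') / (1 + δ') := by
      rw [le_div_iff₀ (by linarith)]
      nlinarith
    nlinarith
  obtain ⟨r₀, hr₀0, hr1, hr2, hr3, hr4⟩ : ∃ r₀ : ℝ, 0 < r₀ ∧ r₀ ≤ rm ∧ r₀ ≤ ri ∧
      r₀ * (n₁ + 1) ≤ T ∧ r₀ * (m * Real.log d + Real.log 3) ≤ δ / 2 := by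
    refine ⟨min (min rm ri) (min (T / (n₁ + 1)) (δ / 2 / (m * Real.log d + Real.log 3))),
      by positivity, (min_le_left _ _).trans (min_le_left _ _),
      (min_le_left _ _).trans (min_le_right _ _), ?_, ?_⟩
    · rw [← le_div_iff₀ (by positivity)]
      exact (min_le_right _ _).trans (min_le_left _ _)
    · rw [← le_div_iff₀ (by positivity)]
      exact (min_le_right _ _).trans (min_le_right _ _)
  refine ⟨r₀, hr₀0, ?_⟩
  intro ψ hψ w α hw hwc hα hG hmu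
  obtain ⟨r', hr'⟩ : ∃ r' : ℝ, r' = ‖mu d m (ψ w) α - mu d m c₀ z₀‖ := ⟨_, rfl⟩
  rw [← hr'] at hmu ⊢
  have hcb : ψ w ∈ closedBall c₀ ε₀ := by rw [mem_closedBall, dist_eq_norm]; exact hwc
  have hαb : α ∈ closedBall z₀ ε₀ := by rw [mem_closedBall, dist_eq_norm]; exact hα
  obtain ⟨i1, i2⟩ := hri _ hcb _ hαb hG (by rw [← hr']; linarith)
  have hcb' : ψ w ∈ ball c₀ ε₁ := by rw [mem_ball, dist_eq_norm]; exact i1
  have hαb' : α ∈ ball z₀ ε₁ := by rw [mem_ball, dist_eq_norm]; exact i2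
  have hψ3 : ‖ψ w‖ ≤ 3 := by
    have a1 := norm_le_two_of_mem hd hc₀
    have a2 := norm_le_norm_add_norm_sub' (ψ w) c₀
    linarith
  have hkey : ∀ n : ℕ, n₁ ≤ n → n * ‖1 - Lq d m q (ψ w) α‖ ≤ 2 * Real.pi - δ' →
      ‖w‖ ^ (d ^ (N₀ + m * n - 1)) ≤ 4 := by
    intro n hn hn2
    have b1 := hdyn1 _ hcb' _ hαb' hG n hn hn2
    have b2 : N₀ + m * n - 1 + 1 = N₀ + m * n := by omega
    exact h1 d hd ψ hψ w hw _ hψ3 (by rw [b2]; exact b1)
  have hLq : 1 - Lq d m q (ψ w) α = 1 - (mu d m (ψ w) α ^ q)⁻¹ := rfl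
  have hmul := hrm (mu d m (ψ w) α) (by rw [← hr']; linarith)
  rw [← hr', ← hLq] at hmul
  have hr'0 : 0 < r' := by
    rcases (norm_nonneg (mu d m (ψ w) α - mu d m c₀ z₀)).lt_or_eq with h | h
    · rw [hr']; exact h
    · exfalso
      have c1 : r' = 0 := by rw [hr', ← h]
      have c2 : ‖1 - Lq d m q (ψ w) α‖ = 0 := by
        apply le_antisymm _ (norm_nonneg _)
        rw [c1] at hmul
        linarith [hmul.2]
      obtain ⟨n, hn⟩ := exists_nat_gt (3 / (‖w‖ - 1))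
      have hw0 : 0 < ‖w‖ - 1 := by linarith
      rw [div_lt_iff₀ hw0] at hn
      have c3 := hkey (max n n₁) (le_max_right _ _) (by rw [c2, mul_zero]; linarith)
      have c4 := bern hw _ c3
      have c5 : (n : ℝ) ≤ ((d ^ (N₀ + m * (max n n₁) - 1) : ℕ) : ℝ) := by
        have c6 : n ≤ N₀ + m * (max n n₁) - 1 := by
          have c7 : n ≤ max n n₁ := le_max_left _ _
          have c8 : max n n₁ ≤ m * max n n₁ := Nat.le_mul_of_pos_left _ hm
          omega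
        have c9 : N₀ + m * (max n n₁) - 1 < d ^ (N₀ + m * (max n n₁) - 1) :=
          Nat.lt_pow_self (by omega)
        exact_mod_cast c6.trans c9.le
      nlinarith
  -- the main estimate
  obtain ⟨n, hn⟩ : ∃ n : ℕ, n = ⌊T / r'⌋₊ := ⟨_, rfl⟩
  have hTr : 0 ≤ T / r' := by positivity
  have hnle : (n : ℝ) ≤ T / r' := by rw [hn]; exact Nat.floor_le hTr
  have hngt : T / r' < n + 1 := by rw [hn]; exact Nat.lt_floor_add_one _
  have hnn1 : n₁ ≤ n := by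
    rw [hn]
    apply Nat.le_floor
    rw [le_div_iff₀ hr'0]
    have : 0 ≤ (n₁ : ℝ) := Nat.cast_nonneg _
    nlinarith
  have hnr : (n : ℝ) * r' ≤ T := by rwa [le_div_iff₀ hr'0] at hnle
  have hnL : n * ‖1 - Lq d m q (ψ w) α‖ ≤ 2 * Real.pi - δ' := by
    have d1 : (1 + δ') * q * T = 2 * Real.pi - δ' := by
      rw [hT]; field_simp
    calc n * ‖1 - Lq d m q (ψ w) α‖ ≤ n * ((1 + δ') * (q * r')) :=
          mul_le_mul_of_nonneg_left hmul.2 (Nat.cast_nonneg _)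
      _ = (1 + δ') * q * (n * r') := by ring
      _ ≤ (1 + δ') * q * T := mul_le_mul_of_nonneg_left hnr (by positivity)
      _ = 2 * Real.pi - δ' := d1
  have hl := log_lower hw hd (hkey n hnn1 hnL)
  have hn' : (m : ℝ) * n ≤ ((N₀ + m * n - 1 : ℕ) : ℝ) := by
    have : m * n ≤ N₀ + m * n - 1 := by omega
    exact_mod_cast this
  have hl2 : m * n * Real.log d - Real.log 3 ≤ Real.log (1 / (‖w‖ - 1)) := by
    have := mul_le_mul_of_nonneg_right hn' hlog.le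
    linarith
  have hl3 : r' * (m * n * Real.log d - Real.log 3) ≤ r' * Real.log (1 / (‖w‖ - 1)) :=
    mul_le_mul_of_nonneg_left hl2 hr'0.le
  have hTn : T ≤ r' * (n + 1) := by
    rw [div_lt_iff₀ hr'0] at hngt
    linarith
  have hl4 : m * Real.log d * T ≤ m * Real.log d * (r' * (n + 1)) :=
    mul_le_mul_of_nonneg_left hTn (by positivity)
  have hl5 : r' * (m * Real.log d + Real.log 3) ≤ r₀ * (m * Real.log d + Real.log 3) :=
    mul_le_mul_of_nonneg_right hmu (by positivity)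
  linarith

theorem part2 (h3 : S_MUL) (hA : S_ANA) (d m q : ℕ) (c₀ z₀ : ℂ) (N₀ : ℕ)
    (hpd : PD d m q c₀ z₀) (hN : 1 ≤ N₀) (hdyn : Dyn d m q c₀ z₀ N₀)
    (δ ε' : ℝ) (hδ : 0 < δ) (hε' : 0 < ε') : ∃ r₀ : ℝ, 0 < r₀ ∧ ∀ r : ℝ, 0 < r → r ≤ r₀ →
    ∀ ψ : ℂ → ℂ, IsExteriorMap (multibrotSet d) ψ → ∃ w α : ℂ, 1 < ‖w‖ ∧ ‖ψ w - c₀‖ ≤ ε' ∧
      ‖α - z₀‖ ≤ ε' ∧ G d m (ψ w) α = α ∧ ‖mu d m (ψ w) α - mu d m c₀ z₀‖ ≤ r ∧
        r * Real.log (1 / (‖w‖ - 1)) ≤ 2 * Real.pi * m * Real.log d / q + δ := by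
  have hd := hpd.hd
  have hm := hpd.hm
  have hq := hpd.hq
  have hqr : (1 : ℝ) ≤ q := by exact_mod_cast hq
  have hmr : (1 : ℝ) ≤ m := by exact_mod_cast hm
  have hdr : (2 : ℝ) ≤ d := by exact_mod_cast hd
  have hlog : 0 < Real.log d := Real.log_pos (by linarith)
  have hlog4 : 0 < Real.log 4 := Real.log_pos (by norm_num)
  have hpi := Real.pi_gt_three
  have hpi4 := Real.pi_lt_four
  obtain ⟨K, hK⟩ : ∃ K : ℝ, K = m * Real.log d / q := ⟨_, rfl⟩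
  have hK0 : 0 < K := by rw [hK]; positivity
  obtain ⟨δ', hδ'0, hδ'1, hδ'2⟩ : ∃ δ' : ℝ, 0 < δ' ∧ δ' ≤ 1 / 2 ∧ 18 * K * δ' ≤ δ / 2 := by
    refine ⟨min (1 / 2) (δ / (36 * K)), by positivity, min_le_left _ _, ?_⟩
    have := min_le_right (1 / 2) (δ / (36 * K))
    calc 18 * K * min (1 / 2) (δ / (36 * K)) ≤ 18 * K * (δ / (36 * K)) :=
          mul_le_mul_of_nonneg_left this (by positivity)
      _ = δ / 2 := by field_simp; norm_num
  obtain ⟨rm, hrm0, hrm⟩ := h3 q (mu d m c₀ z₀) hq hpd.mul.pow_eq_one δ' hδ'0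
  -- continuity of the multiplier
  obtain ⟨εm, hεm0, hεm⟩ : ∃ εm : ℝ, 0 < εm ∧ ∀ c ∈ ball c₀ εm, ∀ α ∈ ball z₀ εm,
      ‖mu d m c α - mu d m c₀ z₀‖ ≤ rm := by
    have a1 := (hA d m c₀ z₀).2.continuousAt
    rw [Metric.continuousAt_iff] at a1
    obtain ⟨e, he, h⟩ := a1 rm hrm0
    refine ⟨e, he, fun c hc α hα => ?_⟩
    have a2 : dist ((c, α) : ℂ × ℂ) (c₀, z₀) < e := by
      rw [Prod.dist_eq]
      exact max_lt hc hα
    have a3 := h a2
    rw [dist_eq_norm] at a3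
    exact a3.le
  obtain ⟨n₁, hdyn2⟩ := hdyn.2 δ' (min ε' εm) hδ'0 (lt_min hε' hεm0)
  obtain ⟨T, hT⟩ : ∃ T : ℝ, T = (2 * Real.pi + δ') / ((1 - δ') * q) := ⟨_, rfl⟩
  have h1δ : 0 < 1 - δ' := by linarith
  have hT0 : 0 < T := by
    rw [hT]
    apply div_pos (by linarith) (by positivity)
  have hKT : m * Real.log d * T ≤ 2 * Real.pi * m * Real.log d / q + δ / 2 := by
    have e1 : m * Real.log d * T = K * ((2 * Real.pi + δ') / (1 - δ')) := by
      rw [hT, hK]; field_simp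
    have e2 : 2 * Real.pi * m * Real.log d / q = K * (2 * Real.pi) := by
      rw [hK]; ring
    rw [e1, e2]
    have e3 : (2 * Real.pi + δ') / (1 - δ') ≤ 2 * Real.pi + 18 * δ' := by
      rw [div_le_iff₀ h1δ]
      nlinarith
    nlinarith
  obtain ⟨M, hM⟩ : ∃ M : ℝ, M = (N₀ + m) * Real.log d + Real.log 4 := ⟨_, rfl⟩
  have hM0 : 0 < M := by
    rw [hM]
    have : (0 : ℝ) ≤ N₀ := Nat.cast_nonneg _
    positivity
  obtain ⟨r₀, hr₀0, hr3, hr4⟩ : ∃ r₀ : ℝ, 0 < r₀ ∧ r₀ * (n₁ + 1) ≤ T ∧ r₀ * M ≤ δ / 2 := by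
    refine ⟨min (T / (n₁ + 1)) (δ / 2 / M), by positivity, ?_, ?_⟩
    · rw [← le_div_iff₀ (by positivity)]
      exact min_le_left _ _
    · rw [← le_div_iff₀ (by positivity)]
      exact min_le_right _ _
  refine ⟨r₀, hr₀0, ?_⟩
  intro r hr0 hr ψ hψ
  obtain ⟨n, hn⟩ : ∃ n : ℕ, n = ⌈T / r⌉₊ := ⟨_, rfl⟩
  have hTr : 0 < T / r := by positivity
  have hnle : T / r ≤ n := by rw [hn]; exact Nat.le_ceil _
  have hnlt : (n : ℝ) < T / r + 1 := by rw [hn]; exact Nat.ceil_lt_add_one hTr.le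
  have hnn1 : n₁ ≤ n := by
    have : (n₁ : ℝ) ≤ n := by
      apply le_trans _ hnle
      rw [le_div_iff₀ hr0]
      have : 0 ≤ (n₁ : ℝ) := Nat.cast_nonneg _
      nlinarith
    exact_mod_cast this
  obtain ⟨c, hc, α, hα, hG, hL, hP⟩ := hdyn2 n hnn1
  rw [mem_ball, dist_eq_norm] at hc hα
  have hc1 : ‖c - c₀‖ < ε' := hc.trans_le (min_le_left _ _)
  have hc2 : ‖c - c₀‖ < εm := hc.trans_le (min_le_right _ _)
  have hα1 : ‖α - z₀‖ < ε' := hα.trans_le (min_le_left _ _)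
  have hα2 : ‖α - z₀‖ < εm := hα.trans_le (min_le_right _ _)
  have hmul := (hrm (mu d m c α) (hεm c (by rw [mem_ball, dist_eq_norm]; exact hc2) α
    (by rw [mem_ball, dist_eq_norm]; exact hα2))).1
  have hLq : 1 - Lq d m q c α = 1 - (mu d m c α ^ q)⁻¹ := rfl
  rw [← hLq] at hmul
  have hn0 : (0 : ℝ) < n := hTr.trans_le hnle
  have hTn : T ≤ n * r := by rwa [div_le_iff₀ hr0] at hnle
  have hmur : ‖mu d m c α - mu d m c₀ z₀‖ ≤ r := by
    have d1 : (1 - δ') * q * T = 2 * Real.pi + δ' := by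
      rw [hT]; field_simp
    have d2 : n * ((1 - δ') * (q * ‖mu d m c α - mu d m c₀ z₀‖)) ≤ 2 * Real.pi + δ' :=
      (mul_le_mul_of_nonneg_left hmul hn0.le).trans hL
    have d3 : (1 - δ') * q * T ≤ (1 - δ') * q * (n * r) :=
      mul_le_mul_of_nonneg_left hTn (by positivity)
    have d4 : (1 - δ') * q * n * ‖mu d m c α - mu d m c₀ z₀‖ ≤ (1 - δ') * q * n * r := by
      calc (1 - δ') * q * n * ‖mu d m c α - mu d m c₀ z₀‖
          = n * ((1 - δ') * (q * ‖mu d m c α - mu d m c₀ z₀‖)) := by ring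
        _ ≤ 2 * Real.pi + δ' := d2
        _ = (1 - δ') * q * T := d1.symm
        _ ≤ (1 - δ') * q * (n * r) := d3
        _ = (1 - δ') * q * n * r := by ring
    exact le_of_mul_le_mul_left d4 (by positivity)
  have hcn : c ∉ multibrotSet d := by
    intro h
    have := (mem_multibrot_iff hd c).mp h (N₀ + m * n)
    linarith
  obtain ⟨w, hw, hwc⟩ : c ∈ ψ '' {z | 1 < ‖z‖} := by rw [hψ.image]; exact hcn
  have hw' : 1 < ‖w‖ := hw
  refine ⟨w, α, hw', ?_, hα1.le, ?_, ?_, ?_⟩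
  · rw [hwc]; exact hc1.le
  · rw [hwc]; exact hG
  · rw [hwc]; exact hmur
  · have b2 : N₀ + m * n - 1 + 1 = N₀ + m * n := by omega
    have b3 := Pool.Agent.W677.MC.P_le_two hd hψ hw' (N₀ + m * n - 1)
    rw [b2, hwc] at b3
    have b4 := log_upper hw' hd (n' := N₀ + m * n - 1) (by linarith)
    have b5 : ((N₀ + m * n - 1 : ℕ) : ℝ) ≤ N₀ + m * n := by
      have : N₀ + m * n - 1 ≤ N₀ + m * n := by omega
      exact_mod_cast this
    have b6 : Real.log (1 / (‖w‖ - 1)) ≤ (N₀ + m * n) * Real.log d + Real.log 4 :=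
      b4.trans (by linarith [mul_le_mul_of_nonneg_right b5 hlog.le])
    have b7 : r * Real.log (1 / (‖w‖ - 1)) ≤ r * ((N₀ + m * n) * Real.log d + Real.log 4) :=
      mul_le_mul_of_nonneg_left b6 hr0.le
    have b8 : r * n ≤ T + r := by
      have : (n : ℝ) * r < (T / r + 1) * r := mul_lt_mul_of_pos_right hnlt hr0
      rw [add_mul, div_mul_cancel₀ _ hr0.ne'] at this
      linarith
    have b9 : m * Real.log d * (r * n) ≤ m * Real.log d * (T + r) :=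
      mul_le_mul_of_nonneg_left b8 (by positivity)
    have b10 : r * M ≤ r₀ * M := mul_le_mul_of_nonneg_right hr hM0.le
    rw [hM] at b10 hr4
    linarith

theorem t_RATES (h1 : S_GU) (h2 : S_ISO) (h3 : S_MUL) (hA : S_ANA) : S_RATES := by
  intro d m q c₀ z₀ N₀ hpd hc₀ hN hdyn
  obtain ⟨ε, hε, hiso⟩ := h2 d m q c₀ z₀ hpd
  refine ⟨min ε 1, lt_min hε one_pos, ?_, ?_⟩
  · intro δ hδ
    refine part1 h1 h3 d m q c₀ z₀ N₀ hpd hc₀ hN hdyn (min ε 1) (min_le_right _ _) ?_ δ hδ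
    intro η hη
    obtain ⟨r, hr, h⟩ := hiso η hη
    refine ⟨r, hr, fun c hc α hα => h c ?_ α ?_⟩
    · exact closedBall_subset_closedBall (min_le_left _ _) hc
    · exact closedBall_subset_closedBall (min_le_left _ _) hα
  · intro δ ε' hδ hε'
    exact part2 h3 hA d m q c₀ z₀ N₀ hpd hN hdyn δ ε' hδ hε'

end Pool.Agent.Y167.PC
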